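import Pool.Agent.Lib.MP_b5e4d4_co.FP.W1

set_option autoImplicit false

/-!
# Expansion of the number of labelled self-converse digraphs: definitions

Library `FP` (`Defs`, `W1`): `G V = Perm V × ℤˣ` acts on the arcs `Arc V`, `S V` is the subgroup of the elements of sign `1`,
`orb H` the number of orbits of `H` on the arcs, `stab D` the stabiliser of `D : Arc V → κ`, `SC D ↔ ¬ stab D ≤ S V` (`SC_iff`),
`Nat.card {D // K ≤ stab D} = card κ ^ orb K` (`W1_fix`).
-/

namespace Pool.Agent.MP_b5e4d4_co.AE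

open Equiv Pool.Agent.MP_b5e4d4_co.FP

/-- the weights on all subgroups: `∑ L ≤ H, w L` is `1` if `H` has an element of sign `-1` and `0` otherwise -/
def IsW {V : Type} [Fintype V] (w : Subgroup (G V) → ℤ) : Prop :=
  open scoped Classical in
  ∀ H : Subgroup (G V), ∑ L : Subgroup (G V) with L ≤ H, w L = if H ≤ S V then 0 else 1

/-- the group of the permutations `π` with `(π, 1) ∈ H` -/
def P0 {V : Type} (H : Subgroup (G V)) : Subgroup (Perm V) := H.comap (MonoidHom.inl (Perm V) ℤˣ)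

/-- the points which are moved by `P0 H` -/
def Mv {V : Type} (H : Subgroup (G V)) : Set V := {v | ∃ π : Perm V, (π, (1 : ℤˣ)) ∈ H ∧ π v ≠ v}

/-- the number of orbits of `P0 H` on the points -/
noncomputable def no {V : Type} (H : Subgroup (G V)) : ℕ :=
  Nat.card (MulAction.orbitRel.Quotient (P0 H) V)

/-- the sum of `2 ^ k` over the involutory permutations of `n` points, `k` the number of 2-cycles (task D1) -/
def a (n : ℕ) : ℕ :=
  ∑ k ∈ Finset.range (n / 2 + 1), n.factorial / (k.factorial * (n - 2 * k).factorial)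

/-- the sum of `w H * 2 ^ orb H` over the subgroups `H` which are not contained in `S V`, for which `P0 H` has no fixed point and
exactly `o` orbits -/
noncomputable def gamV {V : Type} [Fintype V] (w : Subgroup (G V) → ℤ) (o : ℕ) : ℤ :=
  open scoped Classical in
  ∑ H : Subgroup (G V) with ¬ H ≤ S V ∧ Mv H = Set.univ ∧ no H = o, w H * 2 ^ orb H

/-- the numbers `γ(m, o)` -/
noncomputable def gam (w : ∀ m : ℕ, Subgroup (G (Fin m)) → ℤ) (m o : ℕ) : ℤ := gamV (w m) o

/-- the subgroup generated by `g` and the `(α i, 1)` -/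
def cl {V : Type} {t : ℕ} (g : G V) (α : Fin t → Perm V) : Subgroup (G V) :=
  Subgroup.closure ({g} ∪ Set.range fun i => ((α i, 1) : G V))

/-- the sum of `f H` over the subgroups `H` with `P H` -/
noncomputable def sumG {V : Type} [Fintype V] (P : Subgroup (G V) → Prop) (f : Subgroup (G V) → ℤ) : ℤ :=
  open scoped Classical in
  ∑ H : Subgroup (G V) with P H, f H

/-- the terms `w H * 2 ^ orb H` with `card V ≤ no H + J` -/
noncomputable def TJ {V : Type} [Fintype V] (w : Subgroup (G V) → ℤ) (J : ℕ) : ℤ :=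
  sumG (fun H : Subgroup (G V) => ¬ H ≤ S V ∧ Fintype.card V ≤ no H + J) fun H => w H * 2 ^ orb H

/-- the number of the pairs of a digraph `D` with `no (stab D) + r ≤ card V` and an element of sign `-1` of `stab D` -/
noncomputable def NN (V : Type) [Fintype V] (r : ℕ) : ℕ :=
  Nat.card {x : (Arc V → Bool) × G V // x.2 ∈ stab x.1 ∧ x.2.2 = -1 ∧ no (stab x.1) + r ≤ Fintype.card V}

/-- half the number of the points outside `Mv K` which are moved by `g` -/
noncomputable def kk {V : Type} (K : Subgroup (G V)) (g : G V) : ℕ :=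
  Nat.card {v : V // v ∉ Mv K ∧ g.1 v ≠ v} / 2

/-- the sum of `2 ^ orb (cl g α)` over the `(g, α)` with `P g α` and `g.2 = -1` -/
noncomputable def sumC {V : Type} [Fintype V] (n : ℕ) (P : G V → (Fin n → Perm V) → Prop) : ℕ :=
  open scoped Classical in
  ∑ x : G V × (Fin n → Perm V) with x.1.2 = -1 ∧ P x.1 x.2, 2 ^ orb (cl x.1 x.2)

/-- the `j`-th term of the expansion of the number of the self-converse digraphs on `p` points -/
def t (γ : ℕ → ℕ → ℤ) (j p : ℕ) : ℤ :=
  ∑ m ∈ Finset.Icc j (2 * j),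
    (p.choose m : ℤ) * γ m (m - j) * 2 ^ ((m - j) * (p - m) + (p - m).choose 2) * (a (p - m) : ℤ)

/-- `∑ a n X ^ n / n!` -/
noncomputable def A : PowerSeries ℚ := PowerSeries.mk fun n => (a n : ℚ) / n.factorial

/-- the polynomials `∑ γ(m, m - j) X ^ m / (m! 2 ^ (m (m - 1) / 2))`, `j ≤ m ≤ 2 j` -/
noncomputable def Gam (γ : ℕ → ℕ → ℤ) (j : ℕ) : Polynomial ℚ :=
  ∑ m ∈ Finset.Icc j (2 * j),
    Polynomial.monomial m ((γ m (m - j) : ℚ) / (m.factorial * 2 ^ (m.choose 2)))

theorem mem_P0 {V : Type} (H : Subgroup (G V)) (π : Perm V) : π ∈ P0 H ↔ (π, (1 : ℤˣ)) ∈ H := Iff.rfl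

/-- `g` on the points of `p`, extended by the identity if the sign is `1` and by `τ` if the sign is `-1` -/
def phiFun {V : Type} (p : V → Prop) [DecidablePred p] (τ : Perm {v // ¬ p v})
    (g : G {v // p v}) : G V :=
  (Equiv.Perm.subtypeCongr g.1 (if g.2 = 1 then 1 else τ), g.2)

/-- for an involution `τ` the extension is a homomorphism -/
def phi {V : Type} (p : V → Prop) [DecidablePred p] (τ : Perm {v // ¬ p v}) (hτ : τ * τ = 1) :
    G {v // p v} →* G V where
  toFun := phiFun p τ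
  map_one' := by
    show (Equiv.Perm.subtypeCongr (1 : Perm {v // p v}) (if ((1 : ℤˣ) = 1) then 1 else τ), (1 : ℤˣ)) = 1
    rw [if_pos rfl]
    refine Prod.ext ?_ rfl
    ext v
    by_cases h : p v
    · simp [h]
    · simp [h]
  map_mul' := fun g h => by
    have hn : ((-1 : ℤˣ)) ≠ 1 := by decide
    refine Prod.ext ?_ rfl
    ext v
    obtain ⟨π, ε⟩ := g
    obtain ⟨σ, δ⟩ := h
    rcases Int.units_eq_one_or ε with rfl | rfl <;> rcases Int.units_eq_one_or δ with rfl | rfl <;>
      by_cases hv : p v <;> simp [phiFun, hv, hn]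
    have h3 := congrArg (fun f : Perm {v // ¬ p v} => (f ⟨v, hv⟩ : V)) hτ
    simpa using h3.symm

theorem phi_snd {V : Type} (p : V → Prop) [DecidablePred p] (τ : Perm {v // ¬ p v})
    (hτ : τ * τ = 1) (g : G {v // p v}) : (phi p τ hτ g).2 = g.2 := rfl

theorem phi_pos {V : Type} (p : V → Prop) [DecidablePred p] (τ : Perm {v // ¬ p v})
    (hτ : τ * τ = 1) (g : G {v // p v}) (v : V) (h : p v) :
    (phi p τ hτ g).1 v = (g.1 ⟨v, h⟩ : V) := by
  show Equiv.Perm.subtypeCongr g.1 (if g.2 = 1 then 1 else τ) v = _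
  simp [h]

theorem phi_neg_one {V : Type} (p : V → Prop) [DecidablePred p] (τ : Perm {v // ¬ p v})
    (hτ : τ * τ = 1) (g : G {v // p v}) (hg : g.2 = 1) (v : V) (h : ¬ p v) :
    (phi p τ hτ g).1 v = v := by
  show Equiv.Perm.subtypeCongr g.1 (if g.2 = 1 then 1 else τ) v = _
  simp [h, hg]

theorem phi_neg_neg {V : Type} (p : V → Prop) [DecidablePred p] (τ : Perm {v // ¬ p v})
    (hτ : τ * τ = 1) (g : G {v // p v}) (hg : g.2 = -1) (v : V) (h : ¬ p v) :
    (phi p τ hτ g).1 v = (τ ⟨v, h⟩ : V) := by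
  have hn : ((-1 : ℤˣ)) ≠ 1 := by decide
  show Equiv.Perm.subtypeCongr g.1 (if g.2 = 1 then 1 else τ) v = _
  simp [h, hg, hn]

theorem phi_inj {V : Type} (p : V → Prop) [DecidablePred p] (τ : Perm {v // ¬ p v})
    (hτ : τ * τ = 1) : Function.Injective (phi p τ hτ) := by
  intro g h e
  refine Prod.ext ?_ (congrArg (fun x : G V => x.2) e)
  ext ⟨v, hv⟩
  have h1 := congrArg (fun x : G V => x.1 v) e
  simp only [phi_pos p τ hτ _ v hv] at h1
  exact h1

end Pool.Agent.MP_b5e4d4_co.AE
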