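import Pool.Agent.Lib.MP_b5e4d4_co.Mg.G001
import Pool.Agent.Lib.MP_b5e4d4_co.Mg.G002

set_option autoImplicit false

/-!
# Task M: assembly

`M_exact`: `A2_count` and `D4` with `f = 1`. `M_crude`: `E4` and `E12` with `r = J + 1`, `D4_TJ`.
-/

namespace Pool.Agent.MP_b5e4d4_co.AE

open Equiv Pool.Agent.MP_b5e4d4_co.FP

theorem M_exact (w : ∀ m : ℕ, Subgroup (G (Fin m)) → ℤ) (hw : ∀ m, IsW (w m)) (p : ℕ) :
    (Nat.card {D : Arc (Fin p) → Bool // SC D} : ℤ) = ∑ j ∈ Finset.range (p + 1), t (gam w) j p := by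
  rw [A2_count (w p) (hw p)]
  have h := D4 w hw p (fun _ => 1)
  simp only [mul_one, one_mul] at h
  exact h

theorem M_crude (w : ∀ m : ℕ, Subgroup (G (Fin m)) → ℤ) (hw : ∀ m, IsW (w m)) (J : ℕ) :
    ∃ C : ℕ, ∀ p : ℕ, |(Nat.card {D : Arc (Fin p) → Bool // SC D} : ℤ) -
      ∑ j ∈ Finset.range (J + 1), t (gam w) j p| * 2 ^ ((J + 1) * p) ≤
        C * (p + 1) ^ C * 2 ^ p.choose 2 * a p := by
  obtain ⟨C₁, h₁⟩ := E4 J
  obtain ⟨C₂, h₂⟩ := E12 (J + 1) (Nat.le_add_left 1 J)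
  refine ⟨C₁ * C₂ + (2 * J + C₂), fun p => ?_⟩
  have h3 := h₁ (Fin p) (w p) (hw p)
  have h4 := h₂ (Fin p)
  rw [Fintype.card_fin] at h3 h4
  rw [D4_TJ w hw p J] at h3
  have h5 : (C₁ * (p + 1) ^ (2 * J) * NN (Fin p) (J + 1)) * 2 ^ ((J + 1) * p) ≤
      (C₁ * C₂ + (2 * J + C₂)) * (p + 1) ^ (C₁ * C₂ + (2 * J + C₂)) * 2 ^ p.choose 2 * a p := by
    calc (C₁ * (p + 1) ^ (2 * J) * NN (Fin p) (J + 1)) * 2 ^ ((J + 1) * p)
        = C₁ * (p + 1) ^ (2 * J) * (NN (Fin p) (J + 1) * 2 ^ ((J + 1) * p)) := by ring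
      _ ≤ C₁ * (p + 1) ^ (2 * J) * (C₂ * (p + 1) ^ C₂ * 2 ^ p.choose 2 * a p) :=
          Nat.mul_le_mul_left _ h4
      _ = (C₁ * C₂) * (p + 1) ^ (2 * J + C₂) * (2 ^ p.choose 2 * a p) := by ring
      _ ≤ (C₁ * C₂ + (2 * J + C₂)) * (p + 1) ^ (C₁ * C₂ + (2 * J + C₂)) *
          (2 ^ p.choose 2 * a p) := by
          refine Nat.mul_le_mul_right _ (Nat.mul_le_mul (Nat.le_add_right _ _) ?_)
          exact Nat.pow_le_pow_right (Nat.succ_pos p) (Nat.le_add_left _ _)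
      _ = _ := by ring
  calc |(Nat.card {D : Arc (Fin p) → Bool // SC D} : ℤ) -
      ∑ j ∈ Finset.range (J + 1), t (gam w) j p| * 2 ^ ((J + 1) * p)
      ≤ ((C₁ * (p + 1) ^ (2 * J) * NN (Fin p) (J + 1) : ℕ) : ℤ) * 2 ^ ((J + 1) * p) :=
        mul_le_mul_of_nonneg_right h3 (by positivity)
    _ = (((C₁ * (p + 1) ^ (2 * J) * NN (Fin p) (J + 1)) * 2 ^ ((J + 1) * p) : ℕ) : ℤ) := by
        push_cast
        ring
    _ ≤ (((C₁ * C₂ + (2 * J + C₂)) * (p + 1) ^ (C₁ * C₂ + (2 * J + C₂)) * 2 ^ p.choose 2 * a p : ℕ) : ℤ) :=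
        Int.ofNat_le.2 h5
    _ = _ := by
        push_cast
        ring

theorem M_sharp (w : ∀ m : ℕ, Subgroup (G (Fin m)) → ℤ) (hw : ∀ m, IsW (w m)) (J : ℕ) :
    ∃ C : ℕ, ∀ p : ℕ, 1 ≤ p → |(Nat.card {D : Arc (Fin p) → Bool // SC D} : ℤ) -
      ∑ j ∈ Finset.range (J + 1), t (gam w) j p| * 2 ^ ((J + 1) * p) ≤
        C * p ^ (J + 1) * 2 ^ p.choose 2 * a p :=
  E14 (gam w) (fun p => (Nat.card {D : Arc (Fin p) → Bool // SC D} : ℤ)) (M_crude w hw) J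

end Pool.Agent.MP_b5e4d4_co.AE
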